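import Pool.Agent.T9h16.QL.Spec2
import Pool.Agent.T9h77.QC.X6

/-!
# Windows: the probabilistic part, every density
-/

set_option autoImplicit false

namespace Pool.Agent.T9h77.QL

open Finset Pool.Agent.T9h34.Q Pool.Agent.T9h77.QC Pool.Agent.T9h16.QL
open Pool.Agent.PC34 (prob withClique labelGraph)
open Pool.Agent.T9h34 (graphInput)

/-! ### The second moment -/

section mom

variable {n L : ℕ}

/-- centred indicator. -/
noncomputable def bt (a L : ℕ) (x : Fin L) : ℝ := i1 ((x : ℕ) < a) - (a : ℝ) / L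

theorem sum_i1 (a : ℕ) (ha : a ≤ L) : ∑ x : Fin L, i1 ((x : ℕ) < a) = a := by
  have h0 : ∀ x : Fin L, i1 ((x : ℕ) < a) = if (x : ℕ) < a then (1 : ℝ) else 0 := by
    intro x
    unfold i1
    split_ifs <;> rfl
  simp only [h0]
  rw [sum_boole]
  have h1 : ((univ : Finset (Fin L)).filter (fun x : Fin L => (x : ℕ) < a)).card = a := by
    have h2 : ((univ : Finset (Fin L)).filter (fun x : Fin L => (x : ℕ) < a)).map
        Fin.valEmbedding =
        range a := by
      ext y
      simp only [mem_map, mem_filter, mem_univ, true_and, Fin.valEmbedding_apply, mem_range]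
      constructor
      · rintro ⟨x, hx, rfl⟩
        exact hx
      · intro hy
        exact ⟨⟨y, by omega⟩, hy, rfl⟩
    rw [← card_map Fin.valEmbedding, h2, card_range]
  exact_mod_cast h1

theorem sum_bt (a : ℕ) (ha : a ≤ L) (hL : 0 < L) : ∑ x : Fin L, bt a L x = 0 := by
  have hL' : (L : ℝ) ≠ 0 := by exact_mod_cast hL.ne'
  unfold bt
  rw [sum_sub_distrib, sum_i1 a ha, sum_const, card_univ, Fintype.card_fin, nsmul_eq_mul]
  field_simp
  ring

theorem sum_bt_sq (a : ℕ) (ha : a ≤ L) (hL : 0 < L) :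
    ∑ x : Fin L, bt a L x * bt a L x ≤ (L : ℝ) / 4 := by
  have hL' : (0 : ℝ) < L := by exact_mod_cast hL
  have h1 : ∀ x : Fin L, bt a L x * bt a L x =
      i1 ((x : ℕ) < a) * (1 - 2 * ((a : ℝ) / L)) + ((a : ℝ) / L) ^ 2 := by
    intro x
    unfold bt
    by_cases h : (x : ℕ) < a
    · rw [i1_true h]; ring
    · rw [i1_false h]; ring
  simp only [h1]
  rw [sum_add_distrib, ← sum_mul, sum_i1 a ha, sum_const, card_univ, Fintype.card_fin,
    nsmul_eq_mul]
  set p : ℝ := (a : ℝ) / L with hp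
  have h2 : (a : ℝ) = p * L := by rw [hp]; field_simp
  rw [h2]
  nlinarith [sq_nonneg (2 * p - 1)]

theorem sum_two (a : ℕ) (ha : a ≤ L) (hL : 0 < L) {E : Type} [Fintype E] [DecidableEq E]
    (e e' : E) (h : e' ≠ e) : ∑ lab : E → Fin L, bt a L (lab e) * bt a L (lab e') = 0 := by
  have h1 := (Equiv.funSplitAt e (Fin L)).sum_comp
    (fun q => bt a L q.1 * bt a L (q.2 ⟨e', h⟩))
  have h2 : ∑ lab : E → Fin L, bt a L (lab e) * bt a L (lab e') =
      ∑ q : Fin L × ({j // j ≠ e} → Fin L), bt a L q.1 * bt a L (q.2 ⟨e', h⟩) := h1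
  rw [h2, Fintype.sum_prod_type]
  simp only [← mul_sum]
  rw [← sum_mul, sum_bt a ha hL, zero_mul]

theorem sum_one (a : ℕ) (ha : a ≤ L) (hL : 0 < L) {E : Type} [Fintype E] [DecidableEq E]
    (e : E) : ∑ lab : E → Fin L, bt a L (lab e) * bt a L (lab e) ≤
      (Fintype.card (E → Fin L) : ℝ) / 4 := by
  have h1 := (Equiv.funSplitAt e (Fin L)).sum_comp (fun q => bt a L q.1 * bt a L q.1)
  have h2 : ∑ lab : E → Fin L, bt a L (lab e) * bt a L (lab e) =
      ∑ q : Fin L × ({j // j ≠ e} → Fin L), bt a L q.1 * bt a L q.1 := h1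
  have h3 : (Fintype.card (E → Fin L) : ℝ) = L * Fintype.card ({j // j ≠ e} → Fin L) := by
    rw [Fintype.card_congr (Equiv.funSplitAt e (Fin L)), Fintype.card_prod, Fintype.card_fin]
    push_cast
    ring
  rw [h2, Fintype.sum_prod_type, h3]
  simp only [sum_const, card_univ, nsmul_eq_mul]
  rw [← mul_sum]
  have h4 := mul_le_mul_of_nonneg_left (sum_bt_sq a ha hL)
    (Nat.cast_nonneg (α := ℝ) (Fintype.card ({j // j ≠ e} → Fin L)))
  refine h4.trans (le_of_eq ?_)
  ring

/-- the number of ordered adjacent pairs. -/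
theorem ones_lab (lab : Sym2 (Fin n) → Fin L) (a : ℕ) :
    (ones (graphInput (labelGraph lab a)) : ℝ) = (n : ℝ) * ((n : ℝ) - 1) * ((a : ℝ) / L) +
      ∑ p ∈ (univ : Finset (Fin n)).offDiag, bt a L (lab s(p.1, p.2)) := by
  classical
  have h1 : (univ : Finset (Fin n × Fin n)).filter
      (fun p => graphInput (labelGraph lab a) p = true) =
      ((univ : Finset (Fin n)).offDiag).filter (fun p => (lab s(p.1, p.2) : ℕ) < a) := by
    ext p
    have h0 : graphInput (labelGraph lab a) p = true ↔ (labelGraph lab a).Adj p.1 p.2 := by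
      unfold graphInput
      exact decide_eq_true_iff
    rw [mem_filter, mem_filter, mem_offDiag, h0]
    exact ⟨fun h => ⟨⟨mem_univ _, mem_univ _, h.2.1⟩, h.2.2⟩,
      fun h => ⟨mem_univ _, h.1.2.2, h.2⟩⟩
  unfold ones
  rw [h1, ← sum_boole]
  have h2 : ∀ p : Fin n × Fin n, (if (lab s(p.1, p.2) : ℕ) < a then (1 : ℝ) else 0) =
      (a : ℝ) / L + bt a L (lab s(p.1, p.2)) := by
    intro p
    unfold bt i1
    split_ifs <;> ring
  simp only [h2]
  rw [sum_add_distrib, sum_const, offDiag_card, card_univ, Fintype.card_fin,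
    nsmul_eq_mul, Nat.cast_sub (Nat.le_mul_self n)]
  push_cast
  ring

theorem secondL (n a : ℕ) (ha : a ≤ L) (hL : 0 < L) : ∑ lab : Sym2 (Fin n) → Fin L,
    ((ones (graphInput (labelGraph lab a)) : ℝ) - (n : ℝ) * ((n : ℝ) - 1) * ((a : ℝ) / L)) ^ 2 ≤
      (Fintype.card (Sym2 (Fin n) → Fin L) : ℝ) * ((n : ℝ) ^ 2 / 2) := by
  classical
  set CC : ℝ := (Fintype.card (Sym2 (Fin n) → Fin L) : ℝ) with hCC
  have hCC0 : 0 ≤ CC := Nat.cast_nonneg _
  have h1 : ∀ lab : Sym2 (Fin n) → Fin L,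
      ((ones (graphInput (labelGraph lab a)) : ℝ) - (n : ℝ) * ((n : ℝ) - 1) * ((a : ℝ) / L)) ^ 2 =
      ∑ p ∈ (univ : Finset (Fin n)).offDiag, ∑ q ∈ (univ : Finset (Fin n)).offDiag,
        bt a L (lab s(p.1, p.2)) * bt a L (lab s(q.1, q.2)) := by
    intro lab
    rw [ones_lab, ← sum_mul_sum]
    ring
  simp only [h1]
  rw [sum_comm]
  have h2 : ∀ p ∈ (univ : Finset (Fin n)).offDiag,
      ∑ lab : Sym2 (Fin n) → Fin L, ∑ q ∈ (univ : Finset (Fin n)).offDiag,
        bt a L (lab s(p.1, p.2)) * bt a L (lab s(q.1, q.2)) ≤ 2 * (CC / 4) := by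
    intro p _
    rw [sum_comm]
    have h3 : ∀ q ∈ (univ : Finset (Fin n)).offDiag,
        ∑ lab : Sym2 (Fin n) → Fin L, bt a L (lab s(p.1, p.2)) * bt a L (lab s(q.1, q.2)) ≤
        if q ∈ ({p, p.swap} : Finset (Fin n × Fin n)) then CC / 4 else 0 := by
      intro q hq
      by_cases h5 : s(q.1, q.2) = s(p.1, p.2)
      · rw [if_pos, h5]
        · exact sum_one a ha hL _
        · rw [mem_insert, mem_singleton]
          rw [Sym2.eq_iff] at h5
          rcases h5 with ⟨h6, h7⟩ | ⟨h6, h7⟩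
          · exact Or.inl (Prod.ext h6 h7)
          · exact Or.inr (Prod.ext h6 h7)
      · rw [sum_two a ha hL _ _ h5]
        split_ifs <;> positivity
    refine (sum_le_sum h3).trans ?_
    rw [← sum_filter, sum_const, nsmul_eq_mul]
    refine mul_le_mul_of_nonneg_right ?_ (by positivity)
    have h4 : ((univ : Finset (Fin n)).offDiag.filter
        (fun q => q ∈ ({p, p.swap} : Finset (Fin n × Fin n)))).card ≤ 2 := by
      refine (card_le_card (t := ({p, p.swap} : Finset (Fin n × Fin n))) ?_).trans card_le_two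
      intro q hq
      exact (mem_filter.1 hq).2
    exact_mod_cast h4
  have h3 := sum_le_sum h2
  rw [sum_const, offDiag_card, card_univ, Fintype.card_fin, nsmul_eq_mul] at h3
  have h4 : ((n * n - n : ℕ) : ℝ) ≤ (n : ℝ) ^ 2 := by
    rw [Nat.cast_sub (Nat.le_mul_self n)]
    push_cast
    have : (0 : ℝ) ≤ n := Nat.cast_nonneg _
    nlinarith
  have h5 : (0 : ℝ) ≤ 2 * (CC / 4) := by positivity
  have h6 := mul_le_mul_of_nonneg_right h4 h5
  linarith

end mom

/-- Windows for any sample space of graphs. -/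
theorem windows_gen (n k W : ℕ) (hn : 2 ≤ n) (hk : k ≤ n) (hW1 : 1 ≤ W) (hWn : W ≤ n)
    (Ω₁ : Type) [Fintype Ω₁] [Nonempty Ω₁] (G : Ω₁ → SimpleGraph (Fin n)) (μ : ℝ) (hμ0 : 0 ≤ μ)
    (hvar : ∑ ω, ((ones (graphInput (G ω)) : ℝ) - μ) ^ 2 ≤
      (Fintype.card Ω₁ : ℝ) * ((n : ℝ) ^ 2 / 2))
    (P : SimpleGraph (Fin n) → Prop) (α : ℝ) (hα : 0 < α) (hα1 : α ≤ 1)
    (hadv : prob (fun ω : Ω₁ => P (G ω)) + α ≤
      prob (fun x : Ω₁ × {S : Finset (Fin n) // S.card = k} => P (withClique (G x.1) x.2.1))) :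
    ∃ θ : ℕ, prob (fun ω : Ω₁ => Wn θ W (ones (graphInput (G ω))) (P (G ω))) +
      1 / 8 * α ^ 2 * (W / n) ≤
      prob (fun x : Ω₁ × {S : Finset (Fin n) // S.card = k} =>
        Wn θ W (ones (graphInput (withClique (G x.1) x.2.1))) (P (withClique (G x.1) x.2.1))) := by
  classical
  have hn0 : 0 < n := by omega
  have hn' : (0 : ℝ) < n := by exact_mod_cast hn0
  have hW' : (1 : ℝ) ≤ W := by exact_mod_cast hW1
  have hWn' : (W : ℝ) ≤ n := by exact_mod_cast hWn
  set Sk : Type := {S : Finset (Fin n) // S.card = k} with hSk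
  have hSne : Nonempty Sk := by
    obtain ⟨S, _, hS⟩ := exists_subset_card_eq (s := (univ : Finset (Fin n))) (n := k) (by
      rw [card_univ, Fintype.card_fin]; exact hk)
    exact ⟨⟨S, hS⟩⟩
  set Ω : Type := Ω₁ × Sk with hΩ
  have hfst : ∀ A : Ω₁ → Prop, prob A = prob (fun x : Ω => A x.1) := by
    intro A
    rw [prob_eq, prob_eq, Fintype.sum_prod_type, Fintype.card_prod]
    simp only [sum_const, card_univ, nsmul_eq_mul]
    rw [← mul_sum]
    have h1 : (Fintype.card Sk : ℝ) ≠ 0 := by exact_mod_cast Fintype.card_ne_zero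
    have h2 : (Fintype.card Ω₁ : ℝ) ≠ 0 := by exact_mod_cast Fintype.card_ne_zero
    push_cast
    field_simp
  set lo : ℝ := μ - n / α with hlo
  set hi : ℝ := μ + n / α with hhi
  set j₀ : ℕ := ⌊lo / W⌋₊ with hj₀
  set j₁ : ℕ := ⌊hi / W⌋₊ with hj₁
  set J : Finset ℕ := Icc j₀ j₁ with hJ
  have hnα : 0 < (n : ℝ) / α := div_pos hn' hα
  have hhi0 : 0 ≤ hi := by rw [hhi]; linarith
  have hW0 : (0 : ℝ) < W := by linarith
  -- Chebyshev
  have hcheb : ∑ ω : Ω₁, i1 ((n : ℝ) / α < |(ones (graphInput (G ω)) : ℝ) - μ|) ≤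
      (Fintype.card Ω₁ : ℝ) * (α / 2) := by
    have h1 : ∀ ω ∈ (univ : Finset Ω₁),
        i1 ((n : ℝ) / α < |(ones (graphInput (G ω)) : ℝ) - μ|) ≤
        (α / n) ^ 2 * ((ones (graphInput (G ω)) : ℝ) - μ) ^ 2 := by
      intro ω _
      set y := (ones (graphInput (G ω)) : ℝ) - μ
      by_cases h : (n : ℝ) / α < |y|
      · rw [i1_true h, ← mul_pow]
        have h2 : 1 ≤ α / n * |y| := by
          rw [div_lt_iff₀ hα] at h
          rw [div_mul_eq_mul_div, le_div_iff₀ hn']
          nlinarith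
        rw [← sq_abs, abs_mul, abs_of_pos (div_pos hα hn')]
        nlinarith
      · rw [i1_false h]
        positivity
    refine (sum_le_sum h1).trans ?_
    rw [← mul_sum]
    refine (mul_le_mul_of_nonneg_left hvar (sq_nonneg (α / n))).trans ?_
    have h3 : (α / n) ^ 2 * ((Fintype.card Ω₁ : ℝ) * ((n : ℝ) ^ 2 / 2)) =
        (Fintype.card Ω₁ : ℝ) * (α ^ 2 / 2) := by
      field_simp
    rw [h3]
    refine mul_le_mul_of_nonneg_left ?_ (Nat.cast_nonneg _)
    nlinarith
  -- outside of the windows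
  have hout : ∀ ω : Ω₁, ones (graphInput (G ω)) / W ∉ J →
      (n : ℝ) / α < |(ones (graphInput (G ω)) : ℝ) - μ| := by
    intro ω hG
    by_contra hcon
    push Not at hcon
    rw [abs_le] at hcon
    apply hG
    rw [hJ, mem_Icc]
    constructor
    · rw [hj₀, ← Nat.floor_div_eq_div (K := ℝ)]
      refine Nat.floor_le_floor ?_
      refine div_le_div_of_nonneg_right ?_ hW0.le
      rw [hlo]
      linarith
    · rw [hj₁, ← Nat.floor_div_eq_div (K := ℝ)]
      refine Nat.floor_le_floor ?_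
      refine div_le_div_of_nonneg_right ?_ hW0.le
      rw [hhi]
      linarith
  have hcardJ : (J.card : ℝ) ≤ 4 * n / (W * α) := by
    have h1 : (J.card : ℝ) ≤ 2 * ((n : ℝ) / α) / W + 2 := by
      rw [hJ, Nat.card_Icc]
      have h2 : (j₁ : ℝ) ≤ hi / W := Nat.floor_le (div_nonneg hhi0 hW0.le)
      have h3 : lo / W < j₀ + 1 := Nat.lt_floor_add_one _
      have h4 : ((j₁ + 1 - j₀ : ℕ) : ℝ) ≤ max 0 ((j₁ : ℝ) + 1 - j₀) := by
        rcases le_total j₀ (j₁ + 1) with h5 | h5
        · rw [Nat.cast_sub h5]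
          push_cast
          exact le_max_right _ _
        · rw [Nat.sub_eq_zero_of_le h5]
          simp
      refine h4.trans (max_le (by positivity) ?_)
      have h5 : hi / W - lo / W = 2 * ((n : ℝ) / α) / W := by
        rw [hhi, hlo]; ring
      linarith
    refine h1.trans ?_
    have h2 : (2 : ℝ) ≤ 2 * n / (W * α) := by
      rw [le_div_iff₀ (by positivity)]
      nlinarith
    have h3 : 2 * ((n : ℝ) / α) / W = 2 * n / (W * α) := by
      field_simp
    rw [h3]
    have h4 : 4 * (n : ℝ) / (W * α) = 2 * n / (W * α) + 2 * n / (W * α) := by ring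
    rw [h4]
    linarith
  -- the sum over the windows
  have hsum : α / 2 ≤ ∑ j ∈ J, (prob (fun x : Ω =>
      Wn (j * W) W (ones (graphInput (withClique (G x.1) x.2.1))) (P (withClique (G x.1) x.2.1))) -
      prob (fun x : Ω => Wn (j * W) W (ones (graphInput (G x.1))) (P (G x.1)))) := by
    have hc : (0 : ℝ) < Fintype.card Ω := by exact_mod_cast Fintype.card_pos
    have h1 : ∀ x : Ω, i1 (P (withClique (G x.1) x.2.1)) - i1 (P (G x.1)) -
        i1 ((n : ℝ) / α < |(ones (graphInput (G x.1)) : ℝ) - μ|) ≤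
        ∑ j ∈ J, (i1 (Wn (j * W) W (ones (graphInput (withClique (G x.1) x.2.1)))
          (P (withClique (G x.1) x.2.1))) -
          i1 (Wn (j * W) W (ones (graphInput (G x.1))) (P (G x.1)))) := by
      intro x
      refine le_trans ?_ (sum_le_sum fun j _ => step (j := j) (by omega)
        (ones_mono (G x.1) x.2.1))
      rw [sum_ite_eq' J (ones (graphInput (G x.1)) / W)]
      split_ifs with h2
      · have := i1_nonneg ((n : ℝ) / α < |(ones (graphInput (G x.1)) : ℝ) - μ|)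
        linarith
      · rw [i1_true (hout _ h2)]
        have h3 := i1_le_one (P (withClique (G x.1) x.2.1))
        have h4 := i1_nonneg (P (G x.1))
        linarith
    have h2 := sum_le_sum (s := (univ : Finset Ω)) (fun x _ => h1 x)
    rw [sum_comm, sum_sub_distrib, sum_sub_distrib] at h2
    have h3 : ∑ x : Ω, i1 ((n : ℝ) / α < |(ones (graphInput (G x.1)) : ℝ) - μ|) ≤
        (Fintype.card Ω : ℝ) * (α / 2) := by
      rw [Fintype.sum_prod_type, Fintype.card_prod]
      simp only [sum_const, card_univ, nsmul_eq_mul]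
      rw [← mul_sum]
      have h5 := mul_le_mul_of_nonneg_left hcheb (Nat.cast_nonneg (α := ℝ) (Fintype.card Sk))
      refine h5.trans (le_of_eq ?_)
      push_cast
      ring
    have h4 : ∀ A : Ω → Prop, ∑ x, i1 (A x) = Fintype.card Ω * prob A := by
      intro A
      rw [prob_eq]
      field_simp
    rw [hfst] at hadv
    simp only [sum_sub_distrib] at h2 ⊢
    simp only [h4] at h2
    rw [← mul_sum, ← mul_sum] at h2
    have h5 : (Fintype.card Ω : ℝ) * (α / 2) ≤ (Fintype.card Ω : ℝ) *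
        (∑ j ∈ J, prob (fun x : Ω =>
          Wn (j * W) W (ones (graphInput (withClique (G x.1) x.2.1)))
            (P (withClique (G x.1) x.2.1))) -
        ∑ j ∈ J, prob (fun x : Ω =>
          Wn (j * W) W (ones (graphInput (G x.1))) (P (G x.1)))) := by
      have h6 := mul_le_mul_of_nonneg_left hadv hc.le
      rw [h4] at h3
      linarith
    exact le_of_mul_le_mul_left h5 hc
  -- one window
  obtain ⟨j, hj, hj2⟩ : ∃ j ∈ J, 1 / 8 * α ^ 2 * (W / n) ≤ prob (fun x : Ω =>
      Wn (j * W) W (ones (graphInput (withClique (G x.1) x.2.1))) (P (withClique (G x.1) x.2.1))) -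
      prob (fun x : Ω => Wn (j * W) W (ones (graphInput (G x.1))) (P (G x.1))) := by
    by_contra hcon
    push Not at hcon
    have hJne : J.Nonempty := by
      rw [nonempty_iff_ne_empty]
      intro h0
      rw [h0, sum_empty] at hsum
      linarith
    have h1 := sum_lt_sum_of_nonempty hJne hcon
    rw [sum_const, nsmul_eq_mul] at h1
    have h2 : (J.card : ℝ) * (1 / 8 * α ^ 2 * (W / n)) ≤ α / 2 := by
      have h3 := mul_le_mul_of_nonneg_right hcardJ (show 0 ≤ 1 / 8 * α ^ 2 * ((W : ℝ) / n) by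
        positivity)
      refine h3.trans (le_of_eq ?_)
      field_simp
      norm_num
    linarith
  refine ⟨j * W, ?_⟩
  rw [hfst]
  linarith

/-- (X6L) -/
theorem stP6L : StP6L := by
  refine ⟨1 / 8, by norm_num, fun n k W a L hn hk hW1 hWn ha haL P α hα hα1 hadv => ?_⟩
  have hL : 0 < L := by omega
  have hne : Nonempty (Sym2 (Fin n) → Fin L) := ⟨fun _ => ⟨0, hL⟩⟩
  have hn1 : (1 : ℝ) ≤ n := by
    have : 1 ≤ n := by omega
    exact_mod_cast this
  have h0 : 0 ≤ (n : ℝ) * ((n : ℝ) - 1) * ((a : ℝ) / L) := by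
    have h2 : 0 ≤ (n : ℝ) - 1 := by linarith
    positivity
  exact windows_gen n k W hn hk hW1 hWn (Sym2 (Fin n) → Fin L) (fun lab => labelGraph lab a)
    ((n : ℝ) * ((n : ℝ) - 1) * ((a : ℝ) / L)) h0 (secondL n a haL hL) P α hα hα1 hadv

end Pool.Agent.T9h77.QL
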